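import Mathlib
import Pool.Agent.V11256.MunnA

/-!
# The set of ideals with simple quotient is not `G_δ` for non-unital Banach algebras

For `x ⊆ ω` let `B_x` be the Munn algebra `ℓ¹(ω × ω)` with a sandwich matrix depending on `x`.
It is simple iff `x` is finite, and the kernels of suitable quotient maps from `ℓ¹(S)` onto `B_x`
depend continuously on `x` for the Wijsman topology.
-/

namespace Pool.Agent.Results.MP_2e14e4_lc.NotGdelta

open Set Filter Topology
open Pool.Agent.V11256.L1A Pool.Agent.V11256.QuoA Pool.Agent.V11256.MunnA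

section Munn

variable {x : ℕ → Bool}

/-- `k` is the next element of `x` after `j`. -/
def Nx (x : ℕ → Bool) (j k : ℕ) : Prop :=
  j < k ∧ x j = true ∧ x k = true ∧ ∀ i, j < i → i < k → x i = false

theorem Phi_self (j : ℕ) : Phi x j j = 1 := by simp [Phi]

theorem Phi_next {j k : ℕ} (h : Nx x j k) : Phi x j k = -2 := by
  have h' : j < k ∧ x j = true ∧ x k = true ∧ ∀ i, j < i → i < k → x i = false := h
  unfold Phi
  rw [if_neg h.1.ne, if_pos h']

theorem Phi_other {j k : ℕ} (h : j ≠ k) (h' : ¬ Nx x j k) : Phi x j k = 0 := by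
  have h2 : ¬ (j < k ∧ x j = true ∧ x k = true ∧ ∀ i, j < i → i < k → x i = false) := h'
  unfold Phi
  rw [if_neg h, if_neg h2]

theorem Nx.unique_right {j k k' : ℕ} (h : Nx x j k) (h' : Nx x j k') : k = k' := by
  by_contra hne
  rcases lt_or_gt_of_ne hne with hlt | hlt
  · have := h'.2.2.2 k h.1 hlt
    rw [h.2.2.1] at this
    cases this
  · have := h.2.2.2 k' h'.1 hlt
    rw [h'.2.2.1] at this
    cases this

theorem Nx.unique_left {j j' k : ℕ} (h : Nx x j k) (h' : Nx x j' k) : j = j' := by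
  by_contra hne
  rcases lt_or_gt_of_ne hne with hlt | hlt
  · have := h.2.2.2 j' hlt h'.1
    rw [h'.2.1] at this
    cases this
  · have := h'.2.2.2 j hlt h.1
    rw [h.2.1] at this
    cases this

theorem norm_Phi_le2 (j k : ℕ) : ‖Phi x j k‖ ≤ 2 := by
  have := norm_Phi_le x j k
  rw [norm_div] at this
  have h2 : ‖(2 : ℂ)‖ = 2 := by norm_num
  rw [h2] at this
  linarith

/-- Evaluation. -/
noncomputable def ev (p : ℕ × ℕ) : L1 (ℕ × ℕ) →L[ℂ] ℂ :=
  lift (fun q => if q = p then 1 else 0) 1 (fun q => by split_ifs <;> simp)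

theorem ev_apply (p : ℕ × ℕ) (b : L1 (ℕ × ℕ)) : ev p b = b p := by
  unfold ev
  rw [lift_apply, tsum_eq_single p]
  · simp
  · intro q hq
    simp [hq]

variable (x) in
/-- The functional `b ↦ (Φ b Φ)(j, k)`. -/
noncomputable def G (j k : ℕ) : L1 (ℕ × ℕ) →L[ℂ] ℂ :=
  lift (fun p => Phi x j p.1 * Phi x p.2 k) 4 (fun p => by
    rw [norm_mul]
    have h1 := norm_Phi_le2 (x := x) j p.1
    have h2 := norm_Phi_le2 (x := x) p.2 k
    nlinarith [norm_nonneg (Phi x j p.1), norm_nonneg (Phi x p.2 k)])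

variable (x) in
/-- The functional `b ↦ (Φ b)(j, k)`. -/
noncomputable def V (j k : ℕ) : L1 (ℕ × ℕ) →L[ℂ] ℂ :=
  lift (fun p => Phi x j p.1 * (if p.2 = k then 1 else 0)) 2 (fun p => by
    rw [norm_mul]
    have h1 := norm_Phi_le2 (x := x) j p.1
    split_ifs <;> simp [h1])

theorem G_next {j q k : ℕ} (h : Nx x q k) : G x j k = V x j k - (2 : ℂ) • V x j q := by
  refine ext_dl fun p => ?_
  show G x j k (dl p) = V x j k (dl p) - (2 : ℂ) • V x j q (dl p)
  simp only [G, V, lift_dl, smul_eq_mul]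
  by_cases h1 : p.2 = k
  · have h2 : k ≠ q := h.1.ne'
    rw [h1, Phi_self, if_pos rfl, if_neg h2]
    ring
  · by_cases h2 : p.2 = q
    · rw [h2, Phi_next h, if_neg h.1.ne, if_pos rfl]
      ring
    · rw [Phi_other h1 (fun h3 => h2 (h3.unique_left h)), if_neg h1, if_neg h2]
      ring

theorem G_none {j k : ℕ} (h : ∀ q, ¬ Nx x q k) : G x j k = V x j k := by
  refine ext_dl fun p => ?_
  simp only [G, V, lift_dl]
  by_cases h1 : p.2 = k
  · rw [h1, Phi_self, if_pos rfl]
  · rw [Phi_other h1 (h _), if_neg h1]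

theorem V_next {j p k : ℕ} (h : Nx x j p) : V x j k = ev (j, k) - (2 : ℂ) • ev (p, k) := by
  refine ext_dl fun r => ?_
  show V x j k (dl r) = ev (j, k) (dl r) - (2 : ℂ) • ev (p, k) (dl r)
  obtain ⟨r1, r2⟩ := r
  simp only [V, ev, lift_dl, smul_eq_mul, Prod.mk.injEq]
  by_cases hr2 : r2 = k
  · by_cases h1 : r1 = j
    · have h2 : j ≠ p := h.1.ne
      subst h1
      simp [Phi_self, hr2, h2]
    · by_cases h2 : r1 = p
      · subst h2
        simp [Phi_next h, hr2, h1]
      · rw [Phi_other (Ne.symm h1) (fun h3 => h2 (h3.unique_right h))]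
        simp [h1, h2]
  · simp [hr2]

theorem V_none {j k : ℕ} (h : ∀ p, ¬ Nx x j p) : V x j k = ev (j, k) := by
  refine ext_dl fun r => ?_
  obtain ⟨r1, r2⟩ := r
  simp only [V, ev, lift_dl, Prod.mk.injEq]
  by_cases hr2 : r2 = k
  · by_cases h1 : r1 = j
    · subst h1
      simp [Phi_self, hr2]
    · rw [Phi_other (Ne.symm h1) (h _)]
      simp [h1]
  · simp [hr2]

/-- The sandwich identity. -/
theorem sandwich (i j k l : ℕ) (b : L1 (ℕ × ℕ)) :
    mulL (munn x).toSC (mulL (munn x).toSC (dl (i, j)) b) (dl (k, l)) =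
      (G x j k b / 4) • dl (i, l) := by
  have h : ((mulL (munn x).toSC).flip (dl (k, l))).comp (mulL (munn x).toSC (dl (i, j))) =
      ((1 / 4 : ℂ) • (G x j k)).smulRight (dl (i, l)) := by
    refine ext_dl fun p => ?_
    show mulL (munn x).toSC (mulL (munn x).toSC (dl (i, j)) (dl p)) (dl (k, l)) =
      ((1 / 4 : ℂ) • G x j k (dl p)) • dl (i, l)
    rw [mul_dl_dl, mulL_smul_left, mul_dl_dl, smul_smul]
    congr 1
    simp only [G, lift_dl, smul_eq_mul]
    ring
  have h1 := DFunLike.congr_fun h b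
  have h2 : (((1 / 4 : ℂ) • (G x j k)).smulRight (dl (i, l) : L1 (ℕ × ℕ))) b =
      (G x j k b / 4) • dl (i, l) := by
    show ((1 / 4 : ℂ) • G x j k b) • dl (i, l) = _
    congr 1
    rw [smul_eq_mul]
    ring
  rw [h2] at h1
  exact h1

/-- If `x` is finite then `Φ b Φ = 0` only for `b = 0`. -/
theorem eq_zero_of_G {N : ℕ} (hx : ∀ n, N ≤ n → x n = false) {b : L1 (ℕ × ℕ)}
    (h : ∀ j k, G x j k b = 0) : b = 0 := by
  have hV : ∀ k j, V x j k b = 0 := by
    intro k
    induction k using Nat.strong_induction_on with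
    | _ k ih =>
      intro j
      by_cases hq : ∃ q, Nx x q k
      · obtain ⟨q, hq⟩ := hq
        have h1 := h j k
        rw [G_next hq] at h1
        have h2 : V x j k b - (2 : ℂ) • V x j q b = 0 := h1
        rw [ih q hq.1 j, smul_zero, sub_zero] at h2
        exact h2
      · push Not at hq
        have h1 := h j k
        rwa [G_none hq] at h1
  have hb : ∀ m j k, N - j ≤ m → b (j, k) = 0 := by
    intro m
    induction m using Nat.strong_induction_on with
    | _ m ih =>
      intro j k hm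
      by_cases hp : ∃ p, Nx x j p
      · obtain ⟨p, hp⟩ := hp
        have hjN : j < N := by
          by_contra hcon
          have := hx j (not_lt.mp hcon)
          rw [hp.2.1] at this
          cases this
        have h1 := hV k j
        rw [V_next hp] at h1
        have h2 : ev (j, k) b - (2 : ℂ) • ev (p, k) b = 0 := h1
        have hjp := hp.1
        rw [ev_apply, ev_apply, ih (N - p) (by omega) p k le_rfl, smul_zero, sub_zero] at h2
        exact h2
      · push Not at hp
        have h1 := hV k j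
        rwa [V_none hp, ev_apply] at h1
  refine lp.ext ?_
  funext p
  exact hb _ p.1 p.2 le_rfl

theorem mem_idealSpan_iff {B : Type} [NonUnitalNormedRing B] [NormedSpace ℂ B] {b c : B} :
    c ∈ idealSpan b ↔ ∀ L : Submodule ℂ B, IsIdeal L → b ∈ L → c ∈ L := by
  rw [idealSpan, Submodule.mem_sInf]
  exact ⟨fun h L h1 h2 => h L ⟨h1, h2⟩, fun h L hL => h L hL.1 hL.2⟩

/-- Simplicity of an algebra given by structure constants, in terms of the space `ℓ¹(ι)`. -/
theorem simple_iff {ι : Type} (D : ASC ι) : IsSimpleAlg (Alg D) ↔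
    ∀ b : L1 ι, b ≠ 0 → ∀ L : Submodule ℂ (L1 ι),
      (∀ a v, v ∈ L → mulL D.toSC a v ∈ L ∧ mulL D.toSC v a ∈ L) → b ∈ L →
      Dense (L : Set (L1 ι)) := by
  have key : ∀ (b v : Alg D), v ∈ idealSpan b ↔
      ∀ L : Submodule ℂ (Alg D), IsIdeal L → b ∈ L → v ∈ L := fun b v => mem_idealSpan_iff
  constructor
  · intro h b hb L hL hbL
    let L' : Submodule ℂ (Alg D) := L
    have hL' : IsIdeal L' := hL
    have h1 : Dense (idealSpan (B := Alg D) b : Set (Alg D)) := h b hb
    have h2 : (idealSpan (B := Alg D) b : Set (Alg D)) ⊆ L' := fun v hv =>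
      (key b v).mp hv L' hL' hbL
    exact h1.mono h2
  · intro h b hb
    have h1 : IsIdeal (idealSpan (B := Alg D) b) := fun a v hv =>
      ⟨(key b _).mpr fun L hL hbL => (hL a v ((key b v).mp hv L hL hbL)).1,
        (key b _).mpr fun L hL hbL => (hL a v ((key b v).mp hv L hL hbL)).2⟩
    have h2 : b ∈ idealSpan (B := Alg D) b := (key b b).mpr fun L hL hbL => hbL
    exact h b hb (idealSpan (B := Alg D) b) h1 h2

theorem simple_of_finite {N : ℕ} (hx : ∀ n, N ≤ n → x n = false) : IsSimpleAlg (MA x) := by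
  rw [simple_iff]
  intro b hb L hL hbL
  obtain ⟨j, k, hjk⟩ : ∃ j k, G x j k b ≠ 0 := by
    by_contra hcon
    push Not at hcon
    exact hb (eq_zero_of_G hx hcon)
  have hmem : ∀ i l, (dl (i, l) : L1 (ℕ × ℕ)) ∈ L := by
    intro i l
    have h1 : mulL (munn x).toSC (mulL (munn x).toSC (dl (i, j)) b) (dl (k, l)) ∈ L :=
      (hL _ _ ((hL _ _ hbL).1)).2
    rw [sandwich] at h1
    have h3 := L.smul_mem (G x j k b / 4)⁻¹ h1
    have h4 : (G x j k b / 4) ≠ 0 := div_ne_zero hjk (by norm_num)
    rwa [inv_smul_smul₀ h4] at h3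
  intro a
  refine mem_closure_of_tendsto (hasSum_dl a) (Eventually.of_forall fun s => ?_)
  exact L.sum_mem fun p _ => L.smul_mem _ (hmem p.1 p.2)

/-- The number of elements of `x` below `p`. -/
def ct (x : ℕ → Bool) (p : ℕ) : ℕ := ((Finset.range p).filter fun i => x i = true).card

theorem ct_next {j p : ℕ} (h : Nx x j p) : ct x p = ct x j + 1 := by
  classical
  unfold ct
  have : (Finset.range p).filter (fun i => x i = true) =
      insert j ((Finset.range j).filter fun i => x i = true) := by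
    ext i
    rw [Finset.mem_insert, Finset.mem_filter, Finset.mem_filter, Finset.mem_range, Finset.mem_range]
    constructor
    · rintro ⟨h1, h2⟩
      rcases lt_trichotomy i j with h3 | h3 | h3
      · exact Or.inr ⟨h3, h2⟩
      · exact Or.inl h3
      · exfalso
        have := h.2.2.2 i h3 h1
        rw [h2] at this
        cases this
    · rintro (rfl | ⟨h1, h2⟩)
      · exact ⟨h.1, h.2.1⟩
      · exact ⟨h1.trans h.1, h2⟩
  rw [this, Finset.card_insert_of_notMem]
  simp

theorem ct_lt {i j : ℕ} (hij : i < j) (hi : x i = true) : ct x i < ct x j := by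
  classical
  unfold ct
  refine Finset.card_lt_card ?_
  rw [Finset.ssubset_iff_of_subset]
  · exact ⟨i, by simp [hij, hi], by simp⟩
  · intro m hm
    rw [Finset.mem_filter, Finset.mem_range] at hm ⊢
    exact ⟨hm.1.trans hij, hm.2⟩

theorem exists_next (hx : ∀ n, ∃ m, n ≤ m ∧ x m = true) {j : ℕ} (hj : x j = true) :
    ∃ p, Nx x j p := by
  classical
  have h : ∃ m, j + 1 ≤ m ∧ x m = true := hx (j + 1)
  refine ⟨Nat.find h, (Nat.find_spec h).1, hj, (Nat.find_spec h).2, fun i h1 h2 => ?_⟩
  have h3 := Nat.find_min h h2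
  by_contra hcon
  exact h3 ⟨h1, by simpa using hcon⟩

theorem not_simple_of_infinite (hx : ∀ n, ∃ m, n ≤ m ∧ x m = true) : ¬ IsSimpleAlg (MA x) := by
  classical
  rw [simple_iff]
  intro hsim
  -- the kernel vector
  let c : ℕ × ℕ → ℂ := fun p => if p.2 = 0 ∧ x p.1 = true then (1 / 2 : ℂ) ^ ct x p.1 else 0
  have hmem : Memℓp c 1 := by
    refine memℓp_gen ?_
    simp only [ENNReal.toReal_one, Real.rpow_one]
    let g : {p : ℕ // x p = true} → ℕ × ℕ := fun p => (p.1, 0)
    have hg : Function.Injective g := fun p q h => Subtype.ext (congrArg Prod.fst h)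
    rw [← hg.summable_iff]
    · have h1 : (fun i => ‖c i‖) ∘ g = (fun n : ℕ => (1 / 2 : ℝ) ^ n) ∘
          fun p : {p : ℕ // x p = true} => ct x p.1 := by
        funext p
        show ‖c (p.1, 0)‖ = (1 / 2 : ℝ) ^ ct x p.1
        simp [c, p.2]
      rw [h1]
      refine summable_geometric_two.comp_injective fun p q h => ?_
      apply Subtype.ext
      have h' : ct x p.1 = ct x q.1 := h
      rcases lt_trichotomy p.1 q.1 with h2 | h2 | h2
      · have := ct_lt h2 p.2
        omega
      · exact h2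
      · have := ct_lt h2 q.2
        omega
    · rintro ⟨p, q⟩ hpq
      have : ¬ (q = 0 ∧ x p = true) := by
        rintro ⟨rfl, hp⟩
        exact hpq ⟨⟨p, hp⟩, rfl⟩
      simp [c, this]
  let b : L1 (ℕ × ℕ) := ⟨c, hmem⟩
  have hbc : ∀ p, b p = c p := fun _ => rfl
  have hV : ∀ j k, V x j k b = 0 := by
    intro j k
    by_cases hj : x j = true
    · obtain ⟨p, hp⟩ := exists_next hx hj
      rw [V_next hp]
      show ev (j, k) b - (2 : ℂ) • ev (p, k) b = 0
      rw [ev_apply, ev_apply, hbc, hbc]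
      simp only [c, hj, hp.2.2.1, and_true, ct_next hp, smul_eq_mul]
      split_ifs
      · rw [pow_succ]; ring
      · ring
    · have hno : ∀ p, ¬ Nx x j p := fun p hp => hj hp.2.1
      rw [V_none hno, ev_apply, hbc]
      simp [c, hj]
  have hG : ∀ j k, G x j k b = 0 := by
    intro j k
    by_cases hq : ∃ q, Nx x q k
    · obtain ⟨q, hq⟩ := hq
      rw [G_next hq]
      show V x j k b - (2 : ℂ) • V x j q b = 0
      rw [hV, hV, smul_zero, sub_zero]
    · push Not at hq
      rw [G_none hq, hV]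
  -- the ideal
  let L : Submodule ℂ (L1 (ℕ × ℕ)) :=
    { carrier := {v | ∀ j k, G x j k v = 0}
      add_mem' := fun {u v} hu hv j k => by rw [map_add, hu, hv, add_zero]
      zero_mem' := fun j k => map_zero _
      smul_mem' := fun t v hv j k => by rw [map_smul, hv, smul_zero] }
  have hL0 : ∀ v ∈ L, ∀ u w, mulL (munn x).toSC (mulL (munn x).toSC u v) w = 0 := by
    intro v hv u w
    have h1 : ∀ i j k l, mulL (munn x).toSC (mulL (munn x).toSC (dl (i, j)) v) (dl (k, l)) = 0 := by
      intro i j k l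
      rw [sandwich, hv j k, zero_div, zero_smul]
    have h2 : ∀ p, ∀ w, mulL (munn x).toSC (mulL (munn x).toSC (dl p) v) w = 0 := by
      intro p w
      have : mulL (munn x).toSC (mulL (munn x).toSC (dl p) v) = 0 :=
        ext_dl fun q => h1 p.1 p.2 q.1 q.2
      rw [this]
      rfl
    have h3 : ((mulL (munn x).toSC).flip w).comp ((mulL (munn x).toSC).flip v) = 0 :=
      ext_dl fun p => h2 p w
    exact DFunLike.congr_fun h3 u
  have hassoc : ∀ a b c, mulL (munn x).toSC (mulL (munn x).toSC a b) c =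
      mulL (munn x).toSC a (mulL (munn x).toSC b c) := mulL_assoc (munn x).assoc
  have hGz : ∀ v, (∀ j k, mulL (munn x).toSC (mulL (munn x).toSC (dl (0, j)) v) (dl (k, 0)) = 0) →
      v ∈ L := by
    intro v hv j k
    have h1 := hv j k
    rw [sandwich] at h1
    have h2 : (dl ((0 : ℕ), (0 : ℕ)) : L1 (ℕ × ℕ)) ≠ 0 := by
      intro h0
      have := norm_dl ((0 : ℕ), (0 : ℕ))
      rw [h0, norm_zero] at this
      exact zero_ne_one this
    rcases smul_eq_zero.mp h1 with h3 | h3
    · rcases div_eq_zero_iff.mp h3 with h4 | h4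
      · exact h4
      · norm_num at h4
    · exact absurd h3 h2
  have hL : ∀ a v, v ∈ L → mulL (munn x).toSC a v ∈ L ∧ mulL (munn x).toSC v a ∈ L := by
    intro a v hv
    constructor
    · refine hGz _ fun j k => ?_
      rw [← hassoc (dl (0, j)) a v]
      exact hL0 v hv _ _
    · refine hGz _ fun j k => ?_
      rw [← hassoc (dl (0, j)) v a, hassoc]
      exact hL0 v hv _ _
  have hb0 : b ≠ 0 := by
    intro h0
    obtain ⟨p, -, hp⟩ := hx 0
    have h1 : b (p, 0) = 0 := by
      rw [h0]
      rfl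
    rw [hbc] at h1
    simp [c, hp] at h1
  have hd2 : Dense (L : Set (L1 (ℕ × ℕ))) := hsim b hb0 L hL hG
  have hclosed : IsClosed (L : Set (L1 (ℕ × ℕ))) := by
    have : (L : Set (L1 (ℕ × ℕ))) = ⋂ j, ⋂ k, {v | G x j k v = 0} := by
      ext v
      simp only [mem_iInter]
      exact Iff.rfl
    rw [this]
    exact isClosed_iInter fun j => isClosed_iInter fun k =>
      isClosed_eq (G x j k).continuous continuous_const
  have huniv : (L : Set (L1 (ℕ × ℕ))) = univ := by
    rw [← hclosed.closure_eq]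
    exact hd2.closure_eq
  have h1 : (dl ((0 : ℕ), (0 : ℕ)) : L1 (ℕ × ℕ)) ∈ (L : Set (L1 (ℕ × ℕ))) := by
    rw [huniv]
    exact mem_univ _
  have h2 : G x 0 0 (dl ((0 : ℕ), (0 : ℕ))) = 0 := h1 0 0
  simp only [G, lift_dl, Phi_self] at h2
  norm_num at h2

end Munn

/-! ### The set of finite sets is not `G_δ` -/

theorem fin_not_Gdelta : ¬ IsGδ {x : ℕ → Bool | ∃ N, ∀ n, N ≤ n → x n = false} := by
  intro h
  have key : ∀ {V : Set (ℕ → Bool)}, IsOpen V → ∀ a ∈ V, ∃ T : Finset ℕ, ∀ b : ℕ → Bool,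
      (∀ i ∈ T, b i = a i) → b ∈ V := by
    intro V hV a ha
    rw [isOpen_pi_iff] at hV
    obtain ⟨T, u, hu, hT⟩ := hV a ha
    exact ⟨T, fun b hb => hT fun i hi => by
      rw [hb i hi]
      exact (hu i hi).2⟩
  have hd : Dense {x : ℕ → Bool | ∃ N, ∀ n, N ≤ n → x n = false} := by
    rw [dense_iff_inter_open]
    rintro V hV ⟨a, ha⟩
    obtain ⟨T, hT⟩ := key hV a ha
    refine ⟨fun n => if n ≤ T.sup id then a n else false, hT _ fun i hi => ?_, T.sup id + 1,
      fun n hn => ?_⟩
    · have : i ≤ T.sup id := Finset.le_sup (f := id) hi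
      simp [this]
    · have : ¬ n ≤ T.sup id := by omega
      simp [this]
  have h1 : {x : ℕ → Bool | ∃ N, ∀ n, N ≤ n → x n = false} ∈ residual (ℕ → Bool) :=
    residual_of_dense_Gδ h hd
  have h2 : ∀ᶠ x in residual (ℕ → Bool), ∀ n, ∃ m, n ≤ m ∧ x m = true := by
    rw [eventually_countable_forall]
    intro n
    refine residual_of_dense_open ?_ ?_
    · have : {x : ℕ → Bool | ∃ m, n ≤ m ∧ x m = true} =
          ⋃ m ∈ Ici n, (fun x : ℕ → Bool => x m) ⁻¹' {true} := by
        ext x
        simp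
      rw [this]
      exact isOpen_biUnion fun m _ => (isOpen_discrete _).preimage (continuous_apply m)
    · rw [dense_iff_inter_open]
      rintro V hV ⟨a, ha⟩
      obtain ⟨T, hT⟩ := key hV a ha
      let m := max n (T.sup id + 1)
      refine ⟨Function.update a m true, hT _ fun i hi => ?_, m, le_max_left _ _, by simp⟩
      rw [Function.update_of_ne]
      rintro rfl
      have h3 : m ≤ T.sup id := Finset.le_sup (f := id) hi
      have h4 : T.sup id + 1 ≤ m := le_max_right _ _
      omega
  obtain ⟨x, ⟨N, hN⟩, hx⟩ := (dense_of_mem_residual (Filter.inter_mem h1 h2)).nonempty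
  obtain ⟨m, hm, hxm⟩ := hx N
  rw [hN m hm] at hxm
  cases hxm

instance : Countable (FreeSemigroup ℕ) := by
  have : Function.Injective fun s : FreeSemigroup ℕ => (s.head, s.tail) := by
    intro s t h
    have h1 := congrArg Prod.fst h
    have h2 := congrArg Prod.snd h
    exact FreeSemigroup.ext h1 h2
  exact this.countable

/-- The Banach algebra `ℓ¹(S)` for the free semigroup `S` on countably many generators. -/
abbrev P : Type := ConvAlg (FreeSemigroup ℕ)

/-- The set `Simple(P)` is not `G_δ`. -/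
theorem not_Gdelta : ¬ IsGδ (SimpleSet P) := by
  intro h
  obtain ⟨u, hu, hd⟩ := dense_ball (L1 (ℕ × ℕ))
  have hu' : ∀ x : ℕ → Bool, ∀ n, ‖((u n : L1 (ℕ × ℕ)) : MA x)‖ ≤ 1 := fun _ => hu
  let π : ∀ x : ℕ → Bool, P →L[ℂ] MA x := fun x => hom (gen (B := MA x) u) (norm_gen_le (hu' x))
  have hπ : ∀ x : ℕ → Bool, ∀ a b, π x (a * b) = π x a * π x b := fun x => hom_mul _ _
  let F : (ℕ → Bool) → ClosedIdeal P := fun x => kerIdeal (π x) (hπ x)
  have hiso : ∀ x, Iso (Quo (F x)) (MA x) := fun x =>
    iso_of_surjective _ _ (hom_surjective (B := MA x) (hu' x) hd)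
  have hF : Continuous F := by
    rw [continuous_induced_rng]
    refine continuous_pi fun p => ?_
    have h1 : (fun x => Metric.infDist p ((F x).carrier : Set P)) = fun x => ‖π x p‖ := by
      funext x
      exact infDist_ker (π x) (hπ x) (norm_hom_le _ _) (hom_approx (B := MA x) (hu' x) hd) p
    show Continuous fun x => Metric.infDist p ((F x).carrier : Set P)
    rw [h1]
    have h2 : Continuous fun x : ℕ → Bool =>
        lift (fun s => (gen (B := MA x) u s : L1 (ℕ × ℕ))) 1 (norm_gen_le (B := MA x) (hu' x)) p :=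
      continuous_lift (fun (x : ℕ → Bool) s => (gen (B := MA x) u s : L1 (ℕ × ℕ)))
        (fun x => norm_gen_le (B := MA x) (hu' x)) (fun s => continuous_gen u s) p
    exact h2.norm
  have hpre : F ⁻¹' (SimpleSet P) = {x : ℕ → Bool | ∃ N, ∀ n, N ≤ n → x n = false} := by
    ext x
    have h1 : F x ∈ SimpleSet P ↔ IsSimpleAlg (MA x) :=
      ⟨fun h => (hiso x).simple h, fun h => (hiso x).symm.simple h⟩
    rw [mem_preimage, h1]
    constructor
    · intro hs
      by_contra hcon
      refine not_simple_of_infinite (x := x) (fun n => ?_) hs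
      by_contra hno
      push Not at hno
      exact hcon ⟨n, fun m hm => by simpa using hno m hm⟩
    · rintro ⟨N, hN⟩
      exact simple_of_finite hN
  exact fin_not_Gdelta (hpre ▸ h.preimage hF)

/-- **Main theorem.** There is a separable quotient generator `P` for Banach algebras such that
`Simple(P)` is not `G_δ` for the Wijsman topology. (The proof takes `P = ℓ¹(S)` for the free
semigroup `S` on countably many generators.) -/
theorem result : ∃ (P : Type) (_ : NonUnitalNormedRing P) (_ : NormedSpace ℂ P),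
    (CompleteSpace P ∧ TopologicalSpace.SeparableSpace P ∧ IsScalarTower ℂ P P ∧
      SMulCommClass ℂ P P) ∧
    IsQuotientGenerator P ∧ ¬ IsGδ (SimpleSet P) :=
  ⟨P, inferInstance, inferInstance, ⟨inferInstance, inferInstance, inferInstance, inferInstance⟩,
    isQuotientGenerator, not_Gdelta⟩

end Pool.Agent.Results.MP_2e14e4_lc.NotGdelta
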